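import Pool.Agent.helper62.MS.SpecD

set_option autoImplicit false

open scoped MatrixGroups ContDiff Topology UpperHalfPlane ComplexConjugate
open UpperHalfPlane MeasureTheory Filter Set

namespace Pool.Agent.MS

open Pool.Agent.RS

theorem PCK_inv_ent (h : SL(2, ℝ)) : (h⁻¹).1 0 0 = h.1 1 1 ∧ (h⁻¹).1 1 1 = h.1 0 0 ∧
    (h⁻¹).1 0 1 = -h.1 0 1 ∧ (h⁻¹).1 1 0 = -h.1 1 0 := by
  have e : (h⁻¹).1 = !![h.1 1 1, -h.1 0 1; -h.1 1 0, h.1 0 0] := by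
    have h1 : (h⁻¹).1 = Matrix.adjugate h.1 := Matrix.SpecialLinearGroup.coe_inv h
    rw [h1, Matrix.adjugate_fin_two]
  rw [e]
  exact ⟨rfl, rfl, rfl, rfl⟩

theorem PCK_mul_ent (h k : SL(2, ℝ)) : (h * k).1 0 0 = h.1 0 0 * k.1 0 0 + h.1 0 1 * k.1 1 0 ∧
    (h * k).1 1 1 = h.1 1 0 * k.1 0 1 + h.1 1 1 * k.1 1 1 ∧
    (h * k).1 0 1 = h.1 0 0 * k.1 0 1 + h.1 0 1 * k.1 1 1 ∧
    (h * k).1 1 0 = h.1 1 0 * k.1 0 0 + h.1 1 1 * k.1 1 0 := by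
  have e : (h * k).1 = h.1 * k.1 := rfl
  rw [e]
  refine ⟨?_, ?_, ?_, ?_⟩ <;> rw [Matrix.mul_apply, Fin.sum_univ_two]

theorem PCK_det (h : SL(2, ℝ)) : h.1 0 0 * h.1 1 1 - h.1 0 1 * h.1 1 0 = 1 := by
  have h1 := h.2
  rwa [Matrix.det_fin_two] at h1

theorem PCK_inv {a b c : ℝ} {h : SL(2, ℝ)} (hh : bq a b c h) : bq a b c h⁻¹ := by
  obtain ⟨h0, h1, h2, h3⟩ := hh
  obtain ⟨e0, e1, e2, e3⟩ := PCK_inv_ent h
  unfold bq
  rw [e0, e1, e2, e3, abs_neg, abs_neg]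
  exact ⟨h1, h0, h2, h3⟩

/-- estimate for one entry of a product -/
theorem PCK_num {x y u v A B C D : ℝ} (hx : |x| ≤ A) (hy : |y| ≤ B) (hu : |u| ≤ C) (hv : |v| ≤ D) :
    |x * y + u * v| ≤ A * B + C * D := by
  have h1 : |x * y| ≤ A * B := by
    rw [abs_mul]
    exact mul_le_mul hx hy (abs_nonneg _) ((abs_nonneg _).trans hx)
  have h2 : |u * v| ≤ C * D := by
    rw [abs_mul]
    exact mul_le_mul hu hv (abs_nonneg _) ((abs_nonneg _).trans hu)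
  exact (abs_add_le _ _).trans (add_le_add h1 h2)

theorem PCK_prod {a e : ℝ} (ha : 0 < a) (ha' : a ≤ 1 / 100) (he : 0 ≤ e) (he' : e ≤ 1) {h k : SL(2, ℝ)}
    (hh : bq (5 * a) (5 * a) (5 * a * e) h) (hk : bq a a (a * e) k) :
    bq (8 * a) (8 * a) (8 * a * e) (h * k) := by
  obtain ⟨h0, h1, h2, h3⟩ := hh
  obtain ⟨k0, k1, k2, k3⟩ := hk
  obtain ⟨e0, e1, e2, e3⟩ := PCK_mul_ent h k
  have b0 : |h.1 0 0| ≤ 1 + 5 * a := by
    rw [abs_le] at h0 ⊢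
    constructor <;> linarith [h0.1, h0.2]
  have b1 : |h.1 1 1| ≤ 1 + 5 * a := by
    rw [abs_le] at h1 ⊢
    constructor <;> linarith [h1.1, h1.2]
  have c0 : |k.1 0 0| ≤ 1 + a := by
    rw [abs_le] at k0 ⊢
    constructor <;> linarith [k0.1, k0.2]
  have c1 : |k.1 1 1| ≤ 1 + a := by
    rw [abs_le] at k1 ⊢
    constructor <;> linarith [k1.1, k1.2]
  have hae : a * e ≤ a := mul_le_of_le_one_right ha.le he'
  have hae0 : 0 ≤ a * e := mul_nonneg ha.le he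
  have haa : a * a ≤ a / 100 := by nlinarith
  have haae : a * (a * e) ≤ a / 100 := by nlinarith
  have haae' : a * (a * e) ≤ a * e / 100 := by nlinarith
  unfold bq
  rw [e0, e1, e2, e3]
  refine ⟨?_, ?_, ?_, ?_⟩
  · have h4 : h.1 0 0 * k.1 0 0 + h.1 0 1 * k.1 1 0 - 1 =
        (h.1 0 0 - 1) * k.1 0 0 + h.1 0 1 * k.1 1 0 + (k.1 0 0 - 1) := by ring
    rw [h4]
    refine (abs_add_le _ _).trans ?_
    have h5 := PCK_num h0 c0 h2 k3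
    nlinarith
  · have h4 : h.1 1 0 * k.1 0 1 + h.1 1 1 * k.1 1 1 - 1 =
        h.1 1 0 * k.1 0 1 + (h.1 1 1 - 1) * k.1 1 1 + (k.1 1 1 - 1) := by ring
    rw [h4]
    refine (abs_add_le _ _).trans ?_
    have h5 := PCK_num h3 k2 h1 c1
    nlinarith
  · have h5 := PCK_num b0 k2 h2 c1
    nlinarith
  · have h5 := PCK_num h3 c0 b1 k3
    nlinarith

/-- two elements of the same small box -/
theorem PCK_quot {a e : ℝ} (ha : 0 < a) (ha' : a ≤ 1 / 100) (he : 0 ≤ e) (he' : e ≤ 1) {h k : SL(2, ℝ)}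
    (hk : bq (16 * a) (16 * a) (16 * a * e) k)
    (d0 : |h.1 0 0 - k.1 0 0| ≤ a) (d1 : |h.1 1 1 - k.1 1 1| ≤ a) (d2 : |h.1 0 1 - k.1 0 1| ≤ a)
    (d3 : |h.1 1 0 - k.1 1 0| ≤ a * e) :
    bq (5 * a) (5 * a) (5 * a * e) (h * k⁻¹) := by
  obtain ⟨k0, k1, k2, k3⟩ := hk
  obtain ⟨e0, e1, e2, e3⟩ := PCK_mul_ent h k⁻¹
  obtain ⟨i0, i1, i2, i3⟩ := PCK_inv_ent k
  have hdet := PCK_det k
  have c0 : |k.1 0 0| ≤ 1 + 16 * a := by
    rw [abs_le] at k0 ⊢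
    constructor <;> linarith [k0.1, k0.2]
  have c1 : |k.1 1 1| ≤ 1 + 16 * a := by
    rw [abs_le] at k1 ⊢
    constructor <;> linarith [k1.1, k1.2]
  have hae : a * e ≤ a := mul_le_of_le_one_right ha.le he'
  have hae0 : 0 ≤ a * e := mul_nonneg ha.le he
  have haa : a * a ≤ a / 100 := by nlinarith
  have haae : a * (a * e) ≤ a / 100 := by nlinarith
  have haae' : a * (a * e) ≤ a * e / 100 := by nlinarith
  have k2' : |-k.1 0 1| ≤ 16 * a := by rwa [abs_neg]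
  have k3' : |-k.1 1 0| ≤ 16 * a * e := by rwa [abs_neg]
  unfold bq
  rw [e0, e1, e2, e3, i0, i1, i2, i3]
  refine ⟨?_, ?_, ?_, ?_⟩
  · have h4 : h.1 0 0 * k.1 1 1 + h.1 0 1 * -k.1 1 0 - 1 =
        (h.1 0 0 - k.1 0 0) * k.1 1 1 + (h.1 0 1 - k.1 0 1) * -k.1 1 0 := by linear_combination hdet
    rw [h4]
    have h5 := PCK_num d0 c1 d2 k3'
    nlinarith
  · have h4 : h.1 1 0 * -k.1 0 1 + h.1 1 1 * k.1 0 0 - 1 =
        (h.1 1 0 - k.1 1 0) * -k.1 0 1 + (h.1 1 1 - k.1 1 1) * k.1 0 0 := by linear_combination hdet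
    rw [h4]
    have h5 := PCK_num d3 k2' d1 c0
    nlinarith
  · have h4 : h.1 0 0 * -k.1 0 1 + h.1 0 1 * k.1 0 0 =
        (h.1 0 0 - k.1 0 0) * -k.1 0 1 + (h.1 0 1 - k.1 0 1) * k.1 0 0 := by ring
    rw [h4]
    have h5 := PCK_num d0 k2' d2 c0
    nlinarith
  · have h4 : h.1 1 0 * k.1 1 1 + h.1 1 1 * -k.1 1 0 =
        (h.1 1 0 - k.1 1 0) * k.1 1 1 + (h.1 1 1 - k.1 1 1) * -k.1 1 0 := by ring
    rw [h4]
    have h5 := PCK_num d3 c1 d1 k3'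
    nlinarith

/-- the number of the cell -/
noncomputable def PCK_idx (a e : ℝ) (h : SL(2, ℝ)) : ℤ × ℤ × ℤ × ℤ :=
  (⌊(h.1 0 0 - 1) / a⌋, ⌊(h.1 1 1 - 1) / a⌋, ⌊h.1 0 1 / a⌋, ⌊h.1 1 0 / (a * e)⌋)

theorem PCK_floor {x a : ℝ} (ha : 0 < a) (hx : |x| ≤ 16 * a) : ⌊x / a⌋ ∈ Finset.Icc (-16 : ℤ) 16 := by
  rw [abs_le] at hx
  rw [Finset.mem_Icc]
  constructor
  · rw [Int.le_floor, le_div_iff₀ ha]
    push_cast
    linarith [hx.1]
  · have h1 : x / a ≤ 16 := by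
      rw [div_le_iff₀ ha]
      linarith [hx.2]
    have h2 : (⌊x / a⌋ : ℝ) ≤ 16 := (Int.floor_le _).trans h1
    exact_mod_cast h2

theorem PCK_same {x y a : ℝ} (ha : 0 < a) (h : ⌊x / a⌋ = ⌊y / a⌋) : |x - y| ≤ a := by
  have h1 := Int.abs_sub_lt_one_of_floor_eq_floor h
  rw [← sub_div, abs_div, abs_of_pos ha, div_lt_iff₀ ha, one_mul] at h1
  exact h1.le

theorem PCK_mem {a e : ℝ} (ha : 0 < a) (he : 0 < e) {h : SL(2, ℝ)}
    (hh : bq (16 * a) (16 * a) (16 * a * e) h) :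
    PCK_idx a e h ∈ (Finset.Icc (-16 : ℤ) 16 ×ˢ (Finset.Icc (-16 : ℤ) 16 ×ˢ (Finset.Icc (-16 : ℤ) 16 ×ˢ
      Finset.Icc (-16 : ℤ) 16)) : Finset (ℤ × ℤ × ℤ × ℤ)) := by
  obtain ⟨h0, h1, h2, h3⟩ := hh
  refine Finset.mem_product.2 ⟨PCK_floor ha h0, Finset.mem_product.2 ⟨PCK_floor ha h1,
    Finset.mem_product.2 ⟨PCK_floor ha h2, PCK_floor (mul_pos ha he) ?_⟩⟩⟩
  rw [← mul_assoc]
  exact h3

theorem PCK_proof : PCK_stmt := by
  classical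
  intro Γ _
  refine ⟨1 / 100, 33 ^ 4, by norm_num, le_refl _, ?_⟩
  intro a n A ha ha' hn
  obtain ⟨e, he⟩ : ∃ e : ℝ, e = Real.exp (-n) := ⟨_, rfl⟩
  rw [← he]
  have he0 : 0 < e := by
    rw [he]
    exact Real.exp_pos _
  have he1 : e ≤ 1 := by
    rw [he]
    exact Real.exp_le_one_iff.2 (by linarith)
  obtain ⟨cl, hcl⟩ : ∃ cl : SL(2, ℝ) → SL(2, ℝ) → Prop, cl = fun y y' =>
    ∃ γ : Γ, bq (5 * a) (5 * a) (5 * a * e) (y⁻¹ * (γ : SL(2, ℝ)) * y') := ⟨_, rfl⟩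
  have hsym : ∀ y y', cl y y' → cl y' y := by
    intro y y' h
    rw [hcl] at h ⊢
    obtain ⟨γ, hγ⟩ := h
    refine ⟨γ⁻¹, ?_⟩
    have h1 := PCK_inv hγ
    have h2 : (y⁻¹ * (γ : SL(2, ℝ)) * y')⁻¹ = y'⁻¹ * ((γ⁻¹ : Γ) : SL(2, ℝ)) * y := by
      rw [Subgroup.coe_inv]
      group
    rwa [h2] at h1
  obtain ⟨P, hP⟩ : ∃ P : Finset SL(2, ℝ) → Prop, P = fun S =>
    ∀ y ∈ S, ∀ y' ∈ S, y ≠ y' → ¬ cl y y' := ⟨_, rfl⟩
  have hne : (A.powerset.filter P).Nonempty := by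
    refine ⟨∅, Finset.mem_filter.2 ⟨Finset.empty_mem_powerset A, ?_⟩⟩
    rw [hP]
    intro y hy
    exact absurd hy (Finset.notMem_empty y)
  obtain ⟨A', hA', hmax⟩ := Finset.exists_max_image (A.powerset.filter P) Finset.card hne
  obtain ⟨hAA, hPA⟩ := Finset.mem_filter.1 hA'
  rw [Finset.mem_powerset] at hAA
  have hPA' : ∀ y ∈ A', ∀ y' ∈ A', y ≠ y' → ¬ cl y y' := by
    rw [hP] at hPA
    exact hPA
  have hcov : ∀ y ∈ A, y ∉ A' → ∃ y' ∈ A', cl y' y := by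
    intro y hy hyA
    by_contra hcon
    have h1 : insert y A' ∈ A.powerset.filter P := by
      refine Finset.mem_filter.2 ⟨Finset.mem_powerset.2 (Finset.insert_subset hy hAA), ?_⟩
      rw [hP]
      intro z hz z' hz' hzz
      rcases Finset.mem_insert.1 hz with h2 | h2
      · rcases Finset.mem_insert.1 hz' with h3 | h3
        · exact absurd (h2.trans h3.symm) hzz
        · intro h4
          rw [h2] at h4
          exact hcon ⟨z', h3, hsym _ _ h4⟩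
      · rcases Finset.mem_insert.1 hz' with h3 | h3
        · intro h4
          rw [h3] at h4
          exact hcon ⟨z, h2, h4⟩
        · exact hPA' z h2 z' h3 hzz
    have h2 := hmax _ h1
    rw [Finset.card_insert_of_notMem hyA] at h2
    omega
  refine ⟨A', hAA, ?_, ?_⟩
  · rintro g ⟨y, hy, γ, hγ⟩
    by_cases hyA : y ∈ A'
    · refine ⟨y, hyA, γ, ?_⟩
      obtain ⟨h0, h1, h2, h3⟩ := hγ
      refine ⟨by linarith, by linarith, by linarith, h3.trans ?_⟩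
      have h4 : 0 ≤ a * e := (mul_pos ha he0).le
      nlinarith
    · obtain ⟨y', hy', hc⟩ := hcov y hy hyA
      rw [hcl] at hc
      obtain ⟨γ', hγ'⟩ := hc
      refine ⟨y', hy', γ' * γ, ?_⟩
      have h1 := PCK_prod ha ha' he0.le he1 hγ' hγ
      have h2 : y'⁻¹ * (γ' : SL(2, ℝ)) * y * (y⁻¹ * (γ : SL(2, ℝ)) * g) =
          y'⁻¹ * ((γ' * γ : Γ) : SL(2, ℝ)) * g := by
        rw [Subgroup.coe_mul]
        group
      rwa [h2] at h1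
  · intro g
    have hch : ∀ y : SL(2, ℝ), ∃ γ : Γ, (∃ γ : Γ, bq (16 * a) (16 * a) (16 * a * e) (y⁻¹ * (γ : SL(2, ℝ)) * g)) →
        bq (16 * a) (16 * a) (16 * a * e) (y⁻¹ * (γ : SL(2, ℝ)) * g) := by
      intro y
      by_cases h1 : ∃ γ : Γ, bq (16 * a) (16 * a) (16 * a * e) (y⁻¹ * (γ : SL(2, ℝ)) * g)
      · obtain ⟨γ, hγ⟩ := h1
        exact ⟨γ, fun _ => hγ⟩
      · exact ⟨1, fun h2 => absurd h2 h1⟩
    choose G hG using hch
    have hcard : ((Finset.Icc (-16 : ℤ) 16 ×ˢ (Finset.Icc (-16 : ℤ) 16 ×ˢ (Finset.Icc (-16 : ℤ) 16 ×ˢ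
        Finset.Icc (-16 : ℤ) 16)) : Finset (ℤ × ℤ × ℤ × ℤ)) : Set (ℤ × ℤ × ℤ × ℤ)).ncard = 33 ^ 4 := by
      rw [Set.ncard_coe_finset, Finset.card_product, Finset.card_product, Finset.card_product, Int.card_Icc]
      have h33 : ((16 : ℤ) + 1 - (-16)).toNat = 33 := rfl
      rw [h33]
      norm_num
    rw [← hcard]
    refine Set.ncard_le_ncard_of_injOn (fun y => PCK_idx a e (y⁻¹ * (G y : SL(2, ℝ)) * g)) ?_ ?_
      (Finset.finite_toSet _)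
    · rintro y ⟨-, hy⟩
      exact PCK_mem ha he0 (hG y hy)
    · rintro y ⟨hyA, hy⟩ y' ⟨hyA', hy'⟩ heq
      by_contra hne'
      apply hPA' y hyA y' hyA' hne'
      have h1 := hG y hy
      have h2 := hG y' hy'
      have h3 : PCK_idx a e (y⁻¹ * (G y : SL(2, ℝ)) * g) = PCK_idx a e (y'⁻¹ * (G y' : SL(2, ℝ)) * g) := heq
      unfold PCK_idx at h3
      simp only [Prod.mk.injEq] at h3
      obtain ⟨i0, i1, i2, i3⟩ := h3
      have d0 := PCK_same ha i0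
      have d1 := PCK_same ha i1
      have d2 := PCK_same ha i2
      have d3 := PCK_same (mul_pos ha he0) i3
      have e0 : ∀ x z : ℝ, x - 1 - (z - 1) = x - z := fun x z => by ring
      rw [e0] at d0 d1
      have h4 := PCK_quot ha ha' he0.le he1 h2 d0 d1 d2 d3
      rw [hcl]
      refine ⟨G y * (G y')⁻¹, ?_⟩
      have h5 : y⁻¹ * (G y : SL(2, ℝ)) * g * (y'⁻¹ * (G y' : SL(2, ℝ)) * g)⁻¹ =
          y⁻¹ * ((G y * (G y')⁻¹ : Γ) : SL(2, ℝ)) * y' := by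
        rw [Subgroup.coe_mul, Subgroup.coe_inv]
        group
      rwa [h5] at h4

end Pool.Agent.MS
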