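import Pool.Agent.helper57.MS.Spec

set_option autoImplicit false

/-! Row ms:MEET (helper98): intersection of the spaces of sums of products. -/

open Finset

namespace Pool.Agent.helper57.MS

open Pool.Agent.RRank Pool.Agent.helper26.IM

lemma MEET_sum {V : Type} [CommRing V] {ι : Type} {κ : Type}
    [Fintype κ] (j : κ → ι) (b r : κ → V) [DecidableEq (ι × V)] (t : Finset (ι × V))
    (ht : ∀ k, (j k, b k) ∈ t) :
    ∑ p ∈ t, p.2 * (∑ k with (j k, b k) = p, r k) = ∑ k, b k * r k := by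
  rw [← Finset.sum_fiberwise_of_maps_to (s := univ) (t := t) (g := fun k => (j k, b k))
    (fun k _ => ht k)]
  refine Finset.sum_congr rfl fun p _ => ?_
  rw [Finset.mul_sum]
  refine Finset.sum_congr rfl fun k hk => ?_
  rw [Finset.mem_filter] at hk
  rw [← hk.2]

theorem MEET (hUNQ : UNQ_stmt) (hBAS : BAS_stmt) (hIDB : IDB_stmt) (hGRP : GRP_stmt)
    (hEXL : EXL_stmt) (hLKL : LKL_stmt) (hFSE : FSE_stmt) (hLNE : LNE_stmt) : MEET_stmt := by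
  classical
  intro K _ Ω _ Q F S
  induction hn : S.card using Nat.strong_induction_on generalizing S with
  | _ n ih =>
  intro PP₁ PP₂ hP₁ hP₂ g hg₁ hg₂
  rcases S.eq_empty_or_nonempty with rfl | ⟨s, hs⟩
  · have : Subsingleton (Finpartition (∅ : Finset Ω)) :=
      inferInstanceAs (Subsingleton (Finpartition (⊥ : Finset Ω)))
    rcases PP₁.eq_empty_or_nonempty with h | h
    · rw [h, Set.empty_inter, ← h]
      exact hg₁
    · rw [Subsingleton.eq_univ_of_nonempty h, Set.univ_inter]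
      exact hg₂
  obtain ⟨B, hB⟩ := hBAS K Ω Q F
  obtain ⟨κ₁, _, J₁, b₁, r₁, hb₁, hr₁, hi₁, he₁⟩ := hGRP K (((ω : Ω) → Q ω) → K) (Finset Ω)
    (fun J => {b | b ∈ B J ∧ s ∈ J ∧ J ⊆ S}) (fun J => F.Fs (lnk J PP₁)) g
    (hEXL K Ω Q F B hB S s hs PP₁ hP₁ g hg₁)
  obtain ⟨κ₂, _, J₂, b₂, r₂, hb₂, hr₂, hi₂, he₂⟩ := hGRP K (((ω : Ω) → Q ω) → K) (Finset Ω)
    (fun J => {b | b ∈ B J ∧ s ∈ J ∧ J ⊆ S}) (fun J => F.Fs (lnk J PP₂)) g
    (hEXL K Ω Q F B hB S s hs PP₂ hP₂ g hg₂)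
  set t : Finset (Finset Ω × (((ω : Ω) → Q ω) → K)) :=
    univ.image (fun k => (J₁ k, b₁ k)) ∪ univ.image (fun k => (J₂ k, b₂ k)) with ht
  have ht₁ : ∀ k, (J₁ k, b₁ k) ∈ t := fun k =>
    mem_union_left _ (mem_image_of_mem _ (mem_univ k))
  have ht₂ : ∀ k, (J₂ k, b₂ k) ∈ t := fun k =>
    mem_union_right _ (mem_image_of_mem _ (mem_univ k))
  have htB : ∀ p ∈ t, p.2 ∈ B p.1 ∧ s ∈ p.1 ∧ p.1 ⊆ S := by
    intro p hp
    rw [ht, mem_union, mem_image, mem_image] at hp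
    rcases hp with ⟨k, _, rfl⟩ | ⟨k, _, rfl⟩
    · exact hb₁ k
    · exact hb₂ k
  set R₁ : Finset Ω × (((ω : Ω) → Q ω) → K) → (((ω : Ω) → Q ω) → K) :=
    fun p => ∑ k with (J₁ k, b₁ k) = p, r₁ k with hR₁
  set R₂ : Finset Ω × (((ω : Ω) → Q ω) → K) → (((ω : Ω) → Q ω) → K) :=
    fun p => ∑ k with (J₂ k, b₂ k) = p, r₂ k with hR₂
  have hRm₁ : ∀ p, R₁ p ∈ F.Fs (lnk p.1 PP₁) := by
    intro p
    refine Submodule.sum_mem _ fun k hk => ?_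
    rw [mem_filter] at hk
    have := hr₁ k
    rw [← hk.2]
    exact this
  have hRm₂ : ∀ p, R₂ p ∈ F.Fs (lnk p.1 PP₂) := by
    intro p
    refine Submodule.sum_mem _ fun k hk => ?_
    rw [mem_filter] at hk
    have := hr₂ k
    rw [← hk.2]
    exact this
  have hind : F.Ind (fun p : t => p.1.1) (fun p : t => p.1.2) :=
    hIDB K Ω Q F B hB t (fun p => p.1.1) (fun p => p.1.2) (fun p => (htB p.1 p.2).1)
      (fun p q h => Subtype.ext (Prod.ext (congrArg Prod.fst h) (congrArg Prod.snd h)))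
  have hzero : (∑ p : t, p.1.2 * (R₁ p.1 - R₂ p.1)) = 0 := by
    have e1 := MEET_sum J₁ b₁ r₁ t ht₁
    have e2 := MEET_sum J₂ b₂ r₂ t ht₂
    rw [Finset.sum_coe_sort t (fun p => p.2 * (R₁ p - R₂ p))]
    have e3 : ∑ p ∈ t, p.2 * (R₁ p - R₂ p) = ∑ p ∈ t, p.2 * R₁ p - ∑ p ∈ t, p.2 * R₂ p := by
      rw [← Finset.sum_sub_distrib]
      exact Finset.sum_congr rfl fun p _ => mul_sub _ _ _
    rw [e3, e1, e2, ← he₁, ← he₂, sub_self]
  have hall := hUNQ K Ω Q F S s t (fun p => p.1.1) (fun p => p.1.2)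
    (fun p => R₁ p.1 - R₂ p.1) (fun p => (htB p.1 p.2).2)
    (fun p => hB.mem _ _ (htB p.1 p.2).1)
    (fun p => (F.E _).sub_mem (hFSE K Ω Q F _ _ _ (hRm₁ p.1)) (hFSE K Ω Q F _ _ _ (hRm₂ p.1)))
    hind hzero
  have hRr : ∀ k, R₁ (J₁ k, b₁ k) = r₁ k := by
    intro k
    have e4 : (univ.filter fun k' => (J₁ k', b₁ k') = (J₁ k, b₁ k)) = {k} := by
      ext k'
      rw [mem_filter, mem_singleton]
      exact ⟨fun h => hi₁ h.2, fun h => ⟨mem_univ _, by rw [h]⟩⟩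
    show (∑ k' with (J₁ k', b₁ k') = (J₁ k, b₁ k), r₁ k') = r₁ k
    rw [e4, sum_singleton]
  clear_value R₁ R₂
  rw [he₁]
  refine Submodule.sum_mem _ fun k _ => ?_
  have hbk := htB _ (ht₁ k)
  have hne : (J₁ k).Nonempty := ⟨s, hbk.2.1⟩
  have hcard : (S \ J₁ k).card < n := by
    rw [← hn]
    refine card_lt_card ?_
    rw [ssubset_iff_of_subset sdiff_subset]
    exact ⟨s, hs, fun h => (mem_sdiff.1 h).2 hbk.2.1⟩
  have hm₁ : r₁ k ∈ F.Fs (lnk (J₁ k) PP₁) := hr₁ k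
  have hm₂ : r₁ k ∈ F.Fs (lnk (J₁ k) PP₂) := by
    have h1 : R₁ (J₁ k, b₁ k) - R₂ (J₁ k, b₁ k) = 0 := hall ⟨(J₁ k, b₁ k), ht₁ k⟩
    have h2 : r₁ k = R₂ (J₁ k, b₁ k) := (hRr k).symm.trans (sub_eq_zero.1 h1)
    rw [h2]
    exact hRm₂ (J₁ k, b₁ k)
  obtain ⟨hl1, hl2⟩ := hLKL Ω S (J₁ k) hne hbk.2.2
  have hm : r₁ k ∈ F.Fs (lnk (J₁ k) (PP₁ ∩ PP₂)) := by
    rw [hl2]
    exact ih _ hcard (S \ J₁ k) rfl _ _ (hl1 PP₁ hP₁) (hl1 PP₂ hP₂) _ hm₁ hm₂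
  exact hLNE K Ω Q F S (J₁ k) (PP₁ ∩ PP₂) hne hbk.2.2 (b₁ k) (hB.mem _ _ hbk.1) (r₁ k) hm

end Pool.Agent.helper57.MS
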